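import Mathlib
import Pool.Agent.Lib.MP_550fd0_al.Exact
import Pool.Agent.Lib.MP_550fd0_al.Univ

/-!
The bi-invariant metrics on the free group on countably many generators for which it is extremely
amenable form a dense `G_δ` set, and every bounded bi-invariant metric coincides with one of them
on any given finitely generated free factor spanned by generators.
-/

set_option autoImplicit false

open Topology

namespace Pool.Agent.Results.MP_550fd0_al.DenseExact

universe u

/-- The free group on countably many generators. -/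
abbrev F : Type := FreeGroup ℕ

/-- `d` is a bi-invariant metric on `F`. -/
structure IsBiinvariantMetric (d : F → F → ℝ) : Prop where
  eq_iff : ∀ g h, d g h = 0 ↔ g = h
  symm : ∀ g h, d g h = d h g
  triangle : ∀ g h k, d g k ≤ d g h + d h k
  left : ∀ g h k, d (k * g) (k * h) = d g h
  right : ∀ g h k, d (g * k) (h * k) = d g h

/-- The space of bi-invariant metrics on `F` with the topology of pointwise convergence. -/
abbrev D : Type := {d : F → F → ℝ // IsBiinvariantMetric d}

/-- `F` with the metric `d`. -/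
abbrev metricSpace (d : D) : MetricSpace F where
  dist := d.1
  dist_self g := (d.2.eq_iff g g).mpr rfl
  dist_comm := d.2.symm
  dist_triangle := d.2.triangle
  eq_of_dist_eq_zero {g h} := (d.2.eq_iff g h).mp

/-- A group `G` with a topology is extremely amenable (for spaces in the universe `u`): each of its
continuous actions on a nonempty compact Hausdorff space has a fixed point. -/
def ExtremelyAmenable (G : Type) [Group G] (_ : TopologicalSpace G) : Prop :=
  ∀ (X : Type u) [TopologicalSpace X] [CompactSpace X] [T2Space X] [Nonempty X] [MulAction G X],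
    ContinuousSMul G X → ∃ x : X, ∀ g : G, g • x = x

/-- The set of all `d` for which `F` with the topology of the metric `d` is extremely amenable. -/
def E : Set D := {d | ExtremelyAmenable.{u} F (metricSpace d).toUniformSpace.toTopologicalSpace}

/-- main theorem -/
theorem result : IsGδ E.{u} ∧ Dense E.{u} ∧
    ∀ (d : D) (m : ℕ) (T : ℝ), 0 < T → ∃ d' ∈ E.{u},
      ∀ g ∈ Subgroup.closure (FreeGroup.of '' {i | i < m}),
        ∀ h ∈ Subgroup.closure (FreeGroup.of '' {i | i < m}), d'.1 g h = min (d.1 g h) T := by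
  have hPM : ∀ d : D, Lib.MP_550fd0_al.IsPM d.1 := fun d =>
    ⟨fun g => (d.2.eq_iff g g).mpr rfl, d.2.symm, d.2.triangle, d.2.left, d.2.right⟩
  have hE : ∀ d : D, d ∈ E.{u} ↔ ∀ x : Finset F × ℕ × ℕ,
      Lib.MP_550fd0_al.Ram x.1 (1 / ((x.2.1 : ℝ) + 1)) x.2.2 d.1 := fun d =>
    Lib.MP_550fd0_al.Univ.ea_iff.{u} (metricSpace d).toPseudoMetricSpace (hPM d)
  have hex : ∀ (d : D) (m : ℕ) (T : ℝ), 0 < T → ∃ d' ∈ E.{u},
      ∀ g ∈ Subgroup.closure (FreeGroup.of '' {i | i < m}),
        ∀ h ∈ Subgroup.closure (FreeGroup.of '' {i | i < m}), d'.1 g h = min (d.1 g h) T := by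
    intro d m T hT
    obtain ⟨q, hq, hpos, hram, heq⟩ := Lib.MP_550fd0_al.Exact.exists_exact (hPM d)
      (fun g h => (d.2.eq_iff g h).mp) m hT
    refine ⟨⟨q, ⟨fun g h => ⟨hpos g h, ?_⟩, hq.2.1, hq.2.2.1, hq.2.2.2.1, hq.2.2.2.2⟩⟩,
      (hE _).mpr hram, heq⟩
    rintro rfl
    exact hq.1 g
  refine ⟨?_, ?_, hex⟩
  · have h1 : E.{u} = ⋂ x : Finset F × ℕ × ℕ, (Subtype.val : D → F → F → ℝ) ⁻¹'
        {q | Lib.MP_550fd0_al.Ram x.1 (1 / ((x.2.1 : ℝ) + 1)) x.2.2 q} := by
      ext d
      rw [Set.mem_iInter]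
      exact hE d
    rw [h1]
    exact IsGδ.iInter_of_isOpen fun x =>
      (Lib.MP_550fd0_al.isOpen_Ram _ _ _).preimage continuous_subtype_val
  · intro d
    choose a ha1 ha2 using fun n : ℕ => hex d n ((n : ℝ) + 1) (by positivity)
    refine mem_closure_of_tendsto (f := a) (b := Filter.atTop) ?_ (Filter.Eventually.of_forall ha1)
    rw [tendsto_subtype_rng]
    refine tendsto_pi_nhds.mpr fun g => tendsto_pi_nhds.mpr fun k => ?_
    obtain ⟨m, hm⟩ := Lib.MP_550fd0_al.exists_mem_Fm g
    obtain ⟨m', hm'⟩ := Lib.MP_550fd0_al.exists_mem_Fm k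
    obtain ⟨t, ht⟩ := exists_nat_ge (d.1 g k)
    refine tendsto_const_nhds.congr' ?_
    filter_upwards [Filter.eventually_ge_atTop (max t (max m m'))] with n hn
    have h1 : t ≤ n := (le_max_left _ _).trans hn
    have h2 : m ≤ n := (le_max_left _ _).trans ((le_max_right _ _).trans hn)
    have h3 : m' ≤ n := (le_max_right _ _).trans ((le_max_right _ _).trans hn)
    have h4 : (t : ℝ) ≤ n := by exact_mod_cast h1
    have h5 := ha2 n g (Lib.MP_550fd0_al.Fm_mono h2 hm) k (Lib.MP_550fd0_al.Fm_mono h3 hm')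
    rw [h5, min_eq_left]
    linarith

end Pool.Agent.Results.MP_550fd0_al.DenseExact
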